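import Pool.Agent.H29.LG.Targets

set_option autoImplicit false

/-!
# Row LOGR (board lgx_modules): the theorem over the level fields
-/

namespace Pool.Agent.H51.LG

open NumberField Height Finset Polynomial Pool.Agent.H24.RD Pool.Agent.H23.RDD Pool.Agent.H29.RQ
  Pool.Agent.H29.SX Pool.Agent.H29.LG

/-- few primes divide `K` -/
theorem few (P : Finset ℕ) (hP : ∀ p ∈ P, p.Prime) (K : ℕ) (hK : 0 < K) :
    (P.filter (fun p => p ∣ K)).card ≤ Nat.log 2 K := by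
  classical
  have h1 : ∏ p ∈ P.filter (fun p => p ∣ K), p ∣ K := by
    refine Finset.prod_primes_dvd K (fun p hp => ?_) (fun p hp => ?_)
    · exact (hP p (Finset.mem_filter.1 hp).1).prime
    · exact (Finset.mem_filter.1 hp).2
  have h2 : 2 ^ (P.filter (fun p => p ∣ K)).card ≤ ∏ p ∈ P.filter (fun p => p ∣ K), p := by
    rw [← Finset.prod_const]
    refine Finset.prod_le_prod' fun p hp => ?_
    exact (hP p (Finset.mem_filter.1 hp).1).two_le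
  refine Nat.le_log_of_pow_le (by norm_num) (h2.trans (Nat.le_of_dvd hK h1))

theorem pf_LOGR (h1 : T_LVB) (h2 : T_HB) (h3 : T_FINS) (h4 : T_UNR) (h5 : T_PRMS) (h6 : T_NUK)
    (h7 : T_WLD) (h8 : T_TAME) (h9 : T_NORK) (h10 : T_MINK) (h11 : T_FRN) (h12 : T_CNTK)
    (h13 : T_CORK) : T_LOGR := by
  classical
  intro F Ω _ _ _ _ _ _ _ r γ hγ
  have hQ : Algebra.IsAlgebraic ℚ Ω := Algebra.IsAlgebraic.trans ℚ F Ω
  obtain ⟨hnn, -, -, -, -, -, htor⟩ := h2 Ω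
  obtain ⟨f, hf⟩ : ∃ f : ℕ, f = (Module.finrank ℚ F).factorial := ⟨_, rfl⟩
  have hf1 : 1 ≤ f := by
    rw [hf]
    exact Nat.factorial_pos _
  obtain ⟨Y0, hY0⟩ := h4 F r γ hγ.1
  obtain ⟨CP, hCP⟩ := h5
  obtain ⟨c1, hc1, hfin⟩ := h3 F Ω r γ hγ 1 one_pos
  obtain ⟨c3, hc3, hcnt⟩ := h12 r
  have hHg : 1 ≤ Hg F Ω γ := by
    unfold Hg
    have : 0 ≤ ∑ i, absLogHeight₁ (algebraMap F Ω (γ i)) := Finset.sum_nonneg fun i _ => hnn _
    linarith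
  obtain ⟨c, C, hc, hnum⟩ := h6 r f CP Y0 (Hg F Ω γ) c1 c3 hf1 hHg hc1 hc3
  refine ⟨c, C, hc, ?_⟩
  intro N K d hN hKN hd α hrep hα
  have hK : 0 < K := Nat.pos_of_dvd_of_pos hKN hN
  -- the least number of conjugates
  have hP : ∃ D' : ℕ, ∃ N₁ : ℕ, 0 < N₁ ∧ K ∣ N₁ ∧ RepD F Ω γ N₁ K D' α := ⟨d, N, hN, hKN, hrep⟩
  obtain ⟨D, hDdef⟩ : ∃ D : ℕ, D = Nat.find hP := ⟨_, rfl⟩
  have hDs : ∃ N₁ : ℕ, 0 < N₁ ∧ K ∣ N₁ ∧ RepD F Ω γ N₁ K D α := by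
    rw [hDdef]
    exact Nat.find_spec hP
  have hDmin : ∀ N₁ d₁ : ℕ, 0 < N₁ → K ∣ N₁ → RepD F Ω γ N₁ K d₁ α → D ≤ d₁ := by
    intro N₁ d₁ hN₁ hKN₁ h
    rw [hDdef]
    exact Nat.find_min' hP ⟨N₁, hN₁, hKN₁, h⟩
  have hDd : D ≤ d := hDmin N d hN hKN hrep
  -- the least level
  obtain ⟨N1, hN1def⟩ : ∃ N1 : ℕ, N1 = Nat.find hDs := ⟨_, rfl⟩
  have hN1s : 0 < N1 ∧ K ∣ N1 ∧ RepD F Ω γ N1 K D α := by
    rw [hN1def]
    exact Nat.find_spec hDs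
  obtain ⟨hN1, hKN1, hrep1⟩ := hN1s
  have hN1min : ∀ N₁ : ℕ, 0 < N₁ → K ∣ N₁ → RepD F Ω γ N₁ K D α → N1 ≤ N₁ := by
    intro N₁ hN₁ hKN₁ h
    rw [hN1def]
    exact Nat.find_min' hDs ⟨hN₁, hKN₁, h⟩
  have hD : 0 < D := by
    rcases Nat.eq_zero_or_pos D with h0 | h0
    · exfalso
      obtain ⟨β, -, ⟨s, hs, hs'⟩, -⟩ := hrep1
      have h3 := hs' AlgEquiv.refl (fun z _ => rfl)
      rw [h0, Nat.le_zero, Finset.card_eq_zero] at hs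
      rw [hs] at h3
      exact absurd h3 (Finset.notMem_empty _)
    · exact h0
  have hα0 : α ≠ 0 := by
    obtain ⟨β, hβ, -, -, g, hg, h⟩ := hrep1
    rw [h]
    exact mul_ne_zero hβ hg.1
  obtain ⟨lam, hlamd⟩ : ∃ lam : ℝ, lam = absLogHeight₁ α := ⟨_, rfl⟩
  have hlam : 0 < lam := by
    rw [hlamd]
    rcases (hnn α).lt_or_eq with h | h
    · exact h
    · exfalso
      obtain ⟨n, hn, hn1⟩ := htor α hα0 h.symm
      refine hα ⟨hα0, n, hn, 0, ?_⟩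
      rw [hn1]
      simp
  have hD1 : (1 : ℝ) ≤ (D : ℝ) := by exact_mod_cast hD
  have hK1 : (1 : ℝ) ≤ (K : ℝ) := by exact_mod_cast hK
  have hDd' : (D : ℝ) ≤ (d : ℝ) := by exact_mod_cast hDd
  by_contra hcon
  rw [not_le, ← hlamd] at hcon
  have hDK : (1 : ℝ) ≤ D * K := by nlinarith
  have hlog0 : 0 ≤ Real.log (3 * D * K) := Real.log_nonneg (by nlinarith)
  have hlog1 : Real.log (3 * D * K) ≤ Real.log (3 * d * K) := by
    apply Real.log_le_log (by nlinarith)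
    nlinarith
  have hlt : lam * D * (Real.log (3 * D * K)) ^ C < c := by
    refine lt_of_le_of_lt ?_ hcon
    have e1 : lam * D ≤ lam * d := mul_le_mul_of_nonneg_left hDd' hlam.le
    have e2 : (Real.log (3 * D * K)) ^ C ≤ (Real.log (3 * d * K)) ^ C :=
      pow_le_pow_left₀ hlog0 hlog1 C
    exact mul_le_mul e1 e2 (pow_nonneg hlog0 C) (by positivity)
  have hfin2 : c1 ≤ lam * ((K : ℝ) ^ r * D) ^ 2 := by
    have h := hfin N1 K D hN1 hKN1 hD α hrep1 hα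
    rw [← hlamd] at h
    have he : ((1 : ℝ) + 1) = ((2 : ℕ) : ℝ) := by norm_num
    rw [he, Real.rpow_natCast] at h
    exact h
  obtain ⟨s, t, A, n, σ, ρ, Q, G, ht, hσ, hG, hQ1, hY0A, h8A, hsn, hprime, hσρ, hcount, hlast⟩ :=
    hnum K D lam hK hD hlam hfin2 hlt
  -- the primes
  obtain ⟨P0, hP0c, hP0⟩ := hCP A n
  have hfew := few P0 (fun p hp => (hP0 p hp).1) K hK
  have hcomp : (P0.filter (fun p => p ∣ K)).card + (P0.filter (fun p => ¬ p ∣ K)).card = n := by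
    rw [Finset.card_filter_add_card_filter_not, hP0c]
  have hs1 : s ≤ (P0.filter (fun p => ¬ p ∣ K)).card := by omega
  obtain ⟨P, hPs, hPc⟩ := Finset.exists_subset_card_eq hs1
  have hPp : ∀ p ∈ P, p.Prime ∧ A < p ∧ p ≤ CP * (A + n + 1) ^ 2 ∧ ¬ p ∣ K := by
    intro p hp
    have h := Finset.mem_filter.1 (hPs hp)
    exact ⟨(hP0 p h.1).1, (hP0 p h.1).2.1, (hP0 p h.1).2.2, h.2⟩
  have hgood : ∀ p ∈ P, GoodP F γ p := by
    intro p hp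
    obtain ⟨hpp, hAp, -, -⟩ := hPp p hp
    exact hY0 p hpp (by omega)
  have hsq : ∀ p ∈ P, ¬ p ^ 2 ∣ N1 := by
    intro p hp hdvd
    obtain ⟨hpp, hAp, hpC, hpK⟩ := hPp p hp
    obtain ⟨e1, e2, -, -⟩ := hprime p hAp hpC
    have hw := h7 F Ω r γ hγ.1 p (hgood p hp) N1 K D hN1 hKN1 hpK hdvd hD e1 α hrep1
      (by rw [← hlamd]; exact e2)
    have hpN : p ∣ N1 := (dvd_pow_self p two_ne_zero).trans hdvd
    have hpos : 0 < N1 / p := Nat.div_pos (Nat.le_of_dvd hN1 hpN) hpp.pos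
    have hKd : K ∣ N1 / p := by
      have hco : Nat.Coprime K p := ((Nat.Prime.coprime_iff_not_dvd hpp).2 hpK).symm
      refine hco.dvd_of_dvd_mul_left ?_
      rw [Nat.mul_div_cancel' hpN]
      exact hKN1
    have hlt1 : N1 / p < N1 := Nat.div_lt_self hN1 hpp.one_lt
    have := hN1min _ hpos hKd hw
    omega
  obtain ⟨β₀, g₀, E, hβ₀, hg₀, hα₀, hEL, hKKE, hnorm, hCj₀, hRed₀, hRam⟩ :=
    h8 F Ω r γ hγ.1 P N1 K D hN1 hKN1 hD
      (fun p hp => ⟨hgood p hp, (hPp p hp).2.2.2, hsq p hp⟩) α hrep1 (fun p hp => by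
        obtain ⟨hpp, hAp, hpC, hpK⟩ := hPp p hp
        obtain ⟨-, e2, -, -⟩ := hprime p hAp hpC
        rw [← hlamd]
        exact e2)
  -- roots of the generators
  have hT0 : ∀ i, ∃ z : Ω, z ^ K = algebraMap F Ω (γ i) := fun i =>
    IsAlgClosed.exists_pow_nat_eq _ hK
  choose T hT using hT0
  have hTE : ∀ i, T i ∈ E := by
    intro i
    refine hKKE ?_
    unfold Lv
    exact IntermediateField.subset_adjoin _ _ (Or.inr ⟨i, hT i⟩)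
  obtain ⟨β, g, n', x, hβ, hg, hmul, hCj, hRed, hgD, hn', hpow, hx⟩ :=
    h9 F Ω r γ hγ.1 K hK T hT E D β₀ g₀ hTE hβ₀ hCj₀ hRed₀ hg₀
  have hαβ : β * g = α := by rw [hmul, ← hα₀]
  obtain ⟨X, hXD, hX1, hX2⟩ := h10 F Ω r γ hγ.1 N1 K D β g E hN1 hKN1 hβ hEL hCj hRed hgD
    (fun N₂ d₂ hN₂ hKN₂ h => hDmin N₂ d₂ hN₂ hKN₂ (by rw [← hαβ]; exact h))
  -- the upper level
  obtain ⟨N2, hN2d⟩ : ∃ N2 : ℕ, N2 = N1 * ∏ p ∈ P, p ^ f := ⟨_, rfl⟩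
  have hN2 : 0 < N2 := by
    rw [hN2d]
    exact Nat.mul_pos hN1 (Finset.prod_pos fun p hp => pow_pos (hPp p hp).1.pos _)
  have hN12 : N1 ∣ N2 := by
    rw [hN2d]
    exact dvd_mul_right _ _
  have hKN2 : K ∣ N2 := hKN1.trans hN12
  have hpN2 : ∀ p ∈ P, p ^ f ∣ N2 := by
    intro p hp
    rw [hN2d]
    exact (Finset.dvd_prod_of_mem (fun p => p ^ f) hp).trans (dvd_mul_left _ _)
  have hLL : Lv F Ω γ N1 K ≤ Lv F Ω γ N2 K :=
    (h1 F Ω r γ hγ.1 N1 K hN1 hK).2.2.2.2.2 N2 K hN12 dvd_rfl hKN2 hN2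
  have hE2 : E ≤ Lv F Ω γ N2 K := hEL.trans hLL
  -- the exponents
  obtain ⟨dl, hdl⟩ : ∃ dl : ℕ → ℝ, dl = fun p : ℕ =>
    Real.log p / (2 * Real.log (D * p) + 1 + Real.log p) := ⟨_, rfl⟩
  have hdl1 : ∀ p ∈ P, 0 < dl p ∧ dl p ≤ 1 := by
    intro p hp
    have hpp := (hPp p hp).1
    have hp1 : (2 : ℝ) ≤ (p : ℝ) := by exact_mod_cast hpp.two_le
    have hlp : 0 < Real.log p := Real.log_pos (by linarith)
    have hlDp : 0 ≤ Real.log (D * p) := Real.log_nonneg (by nlinarith)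
    rw [hdl]
    have hden : 0 < 2 * Real.log (D * p) + 1 + Real.log p := by linarith
    refine ⟨div_pos hlp hden, ?_⟩
    rw [div_le_one hden]
    linarith
  have hfro : ∀ p ∈ P, ∃ Φ : Ω ≃ₐ[F] Ω, FroK F Ω (Lv F Ω γ N2 1) E p (p ^ f) (dl p) Φ := by
    intro p hp
    rw [hf]
    refine h11 F Ω r γ hγ.1 p N2 K (hPp p hp).1 hN2 hKN2 E hE2 hnorm (dl p) (hdl1 p hp).1 ?_
    rw [hdl]
    exact hRam p hp
  -- enumeration
  obtain ⟨Φp, hΦp⟩ : ∃ Φp : ℕ → Ω ≃ₐ[F] Ω, ∀ p ∈ P,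
      FroK F Ω (Lv F Ω γ N2 1) E p (p ^ f) (dl p) (Φp p) := by
    refine ⟨fun p => if hp : p ∈ P then (hfro p hp).choose else AlgEquiv.refl, ?_⟩
    intro p hp
    simp only [dif_pos hp]
    exact (hfro p hp).choose_spec
  obtain ⟨pr, hprP, hprm⟩ : ∃ pr : ℕ → ℕ, (∀ c, 1 ≤ c → c ≤ s → pr c ∈ P) ∧
      ∀ c₁ c₂, 1 ≤ c₁ → c₁ < c₂ → c₂ ≤ s → pr c₁ < pr c₂ := by
    refine ⟨fun c => if h : c - 1 < s then P.orderEmbOfFin hPc ⟨c - 1, h⟩ else 0, ?_, ?_⟩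
    · intro c hc hcs
      have h : c - 1 < s := by omega
      simp only [dif_pos h]
      exact Finset.orderEmbOfFin_mem P hPc _
    · intro c₁ c₂ hc₁ hc₁₂ hc₂
      have e1 : c₁ - 1 < s := by omega
      have e2 : c₂ - 1 < s := by omega
      simp only [dif_pos e1, dif_pos e2]
      exact (P.orderEmbOfFin hPc).strictMono (Fin.mk_lt_mk.2 (by omega))
  obtain ⟨q, hqd⟩ : ∃ q : ℕ → ℕ, q = fun c => if c = 0 then 1 else pr c ^ f := ⟨_, rfl⟩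
  obtain ⟨Φ, hΦd⟩ : ∃ Φ : ℕ → Ω ≃ₐ[F] Ω, Φ = fun c => if c = 0 then AlgEquiv.refl else Φp (pr c) :=
    ⟨_, rfl⟩
  have hq0 : q 0 = 1 := by rw [hqd]; simp
  have hΦ0 : ∀ z, Φ 0 z = z := by
    intro z
    rw [hΦd]
    simp
  have hqc : ∀ c, 1 ≤ c → q c = pr c ^ f := by
    intro c hc
    rw [hqd]
    simp only [if_neg (by omega : ¬ c = 0)]
  have hΦc : ∀ c, 1 ≤ c → Φ c = Φp (pr c) := by
    intro c hc
    rw [hΦd]
    simp only [if_neg (by omega : ¬ c = 0)]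
  have hKr : (0 : ℝ) < (K : ℝ) := by linarith
  obtain ⟨S, hS, hScard⟩ := hcnt lam (Hg F Ω γ / K) σ (fun i => (x i : ℝ) / n') hlam
    (div_pos (by linarith) hKr) hσ
  have hXS : K ^ r * D < S.card := by
    have h : (K : ℝ) ^ r * D < S.card := hcount.trans_le hScard
    exact_mod_cast h
  have hCj2 : Cj F Ω (Lv F Ω γ N2 K) D β :=
    ⟨X, hXD, fun τ hτ => hX1 τ fun z hz => hτ z (hE2 hz)⟩
  obtain ⟨R, d0, r0, hr0, hd0, hR, hRle, hineq⟩ := h13 F Ω r γ hγ N2 K D hN2 hKN2 E hE2 hnorm T hT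
    hTE s t f pr q (fun c => dl (pr c)) Φ ht hΦ0 hq0
    (fun c hc hcs => by
      have hp := hprP c hc hcs
      obtain ⟨hpp, hAp, hpC, hpK⟩ := hPp _ hp
      refine ⟨hqc c hc, hgood _ hp, (hdl1 _ hp).1, (hdl1 _ hp).2, ?_, hpN2 _ hp, ?_⟩
      · calc 8 ≤ pr c := by omega
          _ = pr c ^ 1 := (pow_one _).symm
          _ ≤ pr c ^ f := Nat.pow_le_pow_right hpp.pos hf1
      · rw [hΦc c hc]
        exact hΦp _ hp)
    (fun c₁ c₂ hc₁ hc₁₂ hc₂ => Nat.pow_lt_pow_left (hprm c₁ c₂ hc₁ hc₁₂ hc₂) (by omega))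
    β g hβ hg n' x hn' hpow hx hCj2 X hX1 (hX2 N2 hN2 hN12) (by rw [hαβ]; exact hα) G Q ρ σ hG hQ1
    hσ.le
    (fun c hc hcs => by
      have hp := hprP c hc hcs
      obtain ⟨hpp, hAp, hpC, hpK⟩ := hPp _ hp
      obtain ⟨-, -, e3, e4⟩ := hprime _ hAp hpC
      refine ⟨?_, ?_⟩
      · rw [hdl]
        exact e4
      · rw [hqc c hc]
        push_cast
        exact e3)
    hσρ S (by rw [hαβ, ← hlamd]; exact hS) hXS
  rw [hαβ, ← hlamd] at hRle hineq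
  have := hlast R d0 r0 hr0 hd0 hR hRle
  linarith

end Pool.Agent.H51.LG
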